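import Pool.Agent.H99.FI.Final.Root

/-!
# Proper colourings of a regular tree: automorphisms, extensions, counting
-/

set_option autoImplicit false

namespace FI.Law

open scoped Classical

variable {V : Type} {G : SimpleGraph V} {d : ℕ} {o : V}

/-- the edge between two adjacent vertices -/
def ed {u w : V} (h : G.Adj u w) : G.edgeSet := ⟨s(u, w), h⟩

theorem ed_symm {u w : V} (h : G.Adj u w) : ed h = ed h.symm := Subtype.ext Sym2.eq_swap

theorem mem_ed_left {u w : V} (h : G.Adj u w) : u ∈ (ed h : Sym2 V) := Sym2.mem_mk_left u w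

theorem mem_ed_right {u w : V} (h : G.Adj u w) : w ∈ (ed h : Sym2 V) := Sym2.mem_mk_right u w

theorem mem_ed {u w x : V} (h : G.Adj u w) : x ∈ (ed h : Sym2 V) ↔ x = u ∨ x = w := Sym2.mem_iff

theorem edge_at (e : G.edgeSet) (v : V) (hv : v ∈ (e : Sym2 V)) :
    ∃ w, ∃ h : G.Adj v w, e = ed h := by
  obtain ⟨e, he⟩ := e
  obtain ⟨w, rfl⟩ := Sym2.mem_iff_exists.1 hv
  exact ⟨w, he, rfl⟩

theorem exists_ed (e : G.edgeSet) : ∃ u w, ∃ h : G.Adj u w, e = ed h := by
  obtain ⟨e, he⟩ := e
  induction e using Sym2.ind with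
  | _ u w => exact ⟨u, w, he, rfl⟩

theorem ed_inj {u w w' : V} (h : G.Adj u w) (h' : G.Adj u w') (he : ed h = ed h') : w = w' := by
  have h1 : s(u, w) = s(u, w') := congrArg Subtype.val he
  rcases Sym2.eq_iff.1 h1 with ⟨_, h2⟩ | ⟨h2, h3⟩
  · exact h2
  · rw [← h2, h3]

/-- recursion along the tree -/
theorem RD.exists_rec (R : RD G o) {X : Type} (x0 : X) (F : V → X → X) :
    ∃ g : V → X, g o = x0 ∧ ∀ v, v ≠ o → g v = F v (g (R.par v)) := by
  let ga : ℕ → V → X := fun n => Nat.rec (fun _ => x0) (fun _ f v => F v (f (R.par v))) n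
  refine ⟨fun v => ga (R.lev v) v, ?_, ?_⟩
  · show ga (R.lev o) o = x0
    rw [R.lev_o]
    rfl
  · intro v hv
    show ga (R.lev v) v = F v (ga (R.lev (R.par v)) (R.par v))
    rw [R.lev_par v hv]

/-- induction along the tree -/
theorem RD.ind (R : RD G o) {P : V → Prop} (h0 : P o)
    (h : ∀ v, v ≠ o → P (R.par v) → P v) : ∀ v, P v := by
  have key : ∀ n v, R.lev v = n → P v := by
    intro n
    induction n with
    | zero =>
      intro v hv
      by_cases hvo : v = o
      · rw [hvo]; exact h0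
      · have := R.lev_par v hvo
        omega
    | succ n ih =>
      intro v hv
      by_cases hvo : v = o
      · rw [hvo]; exact h0
      · have := R.lev_par v hvo
        exact h v hvo (ih _ (by omega))
  exact fun v => key _ v rfl

/-- proper at a vertex -/
def PA (c : G.edgeSet → Fin d) (v : V) : Prop :=
  ∀ e e' : G.edgeSet, e ≠ e' → v ∈ (e : Sym2 V) → v ∈ (e' : Sym2 V) → c e ≠ c e'

theorem proper_iff (c : G.edgeSet → Fin d) : Proper G d c ↔ ∀ v, PA c v := by
  constructor
  · intro h v e e' hne hv hv'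
    exact h e e' hne ⟨v, hv, hv'⟩
  · rintro h e e' hne ⟨v, hv, hv'⟩
    exact h v e e' hne hv hv'

theorem PA.inj {c : G.edgeSet → Fin d} {v w w' : V} (hc : PA c v) (h : G.Adj v w)
    (h' : G.Adj v w') (he : c (ed h) = c (ed h')) : w = w' := by
  by_contra hne
  refine hc (ed h) (ed h') (fun h1 => hne (ed_inj h h' h1)) (mem_ed_left h) (mem_ed_left h') he

/-- regularity -/
def Reg (G : SimpleGraph V) (d : ℕ) : Prop :=
  ∀ v, (G.neighborSet v).Finite ∧ (G.neighborSet v).ncard = d

theorem Reg.finite (hreg : Reg G d) (v : V) : Finite (G.neighborSet v) := (hreg v).1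

theorem Reg.card (hreg : Reg G d) (v : V) : Nat.card (G.neighborSet v) = d := by
  exact (hreg v).2

theorem PA.surj (hreg : Reg G d) {c : G.edgeSet → Fin d} {v : V} (hc : PA c v) (k : Fin d) :
    ∃ w, ∃ h : G.Adj v w, c (ed h) = k := by
  have hfin := hreg.finite v
  let f : G.neighborSet v → Fin d := fun w => c (ed (G := G) (u := v) (w := w.1) w.2)
  have hf : Function.Injective f := by
    intro a b hab
    exact Subtype.ext (hc.inj a.2 b.2 hab)
  have hb : Function.Bijective f := hf.bijective_of_nat_card_le (by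
    rw [hreg.card v, Nat.card_fin])
  obtain ⟨w, hw⟩ := hb.2 k
  exact ⟨w.1, w.2, hw⟩

/-- colour preserving homomorphisms -/
def CH (c c' : G.edgeSet → Fin d) (g : V → V) : Prop :=
  ∀ u w (h : G.Adj u w), ∃ h' : G.Adj (g u) (g w), c' (ed h') = c (ed h)

theorem exists_hom (R : RD G o) (hreg : Reg G d) (c c' : G.edgeSet → Fin d)
    (hc' : ∀ v, PA c' v) : ∃ g : V → V, g o = o ∧ CH c c' g := by
  have h1 : ∀ (u : V) (k : Fin d), ∃ w, ∃ h : G.Adj u w, c' (ed h) = k :=
    fun u k => (hc' u).surj hreg k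
  choose nb hnb hnbc using h1
  obtain ⟨g, hg0, hg⟩ := R.exists_rec o
    (fun v x => if hv : v ≠ o then nb x (c (ed (R.adj v hv))) else x)
  refine ⟨g, hg0, ?_⟩
  have key : ∀ v (hv : v ≠ o), ∃ h' : G.Adj (g v) (g (R.par v)),
      c' (ed h') = c (ed (R.adj v hv)) := by
    intro v hv
    have h2 := hg v hv
    rw [dif_pos hv] at h2
    have h3 := hnb (g (R.par v)) (c (ed (R.adj v hv)))
    have h4 := hnbc (g (R.par v)) (c (ed (R.adj v hv)))
    rw [h2]
    exact ⟨h3.symm, (congrArg c' (ed_symm h3).symm).trans h4⟩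
  intro u w h
  rcases R.cases u w h with ⟨hu, rfl⟩ | ⟨hw, rfl⟩
  · exact key u hu
  · obtain ⟨h5, h6⟩ := key w hw
    exact ⟨h5.symm, (congrArg c' (ed_symm h5).symm).trans (h6.trans (congrArg c (ed_symm _)))⟩

theorem hom_unique (R : RD G o) (c c' : G.edgeSet → Fin d) (hc' : ∀ v, PA c' v)
    (g g' : V → V) (h0 : g o = g' o) (hg : CH c c' g) (hg' : CH c c' g') : g = g' := by
  funext v
  refine R.ind (P := fun v => g v = g' v) h0 ?_ v
  intro v hv ih
  obtain ⟨h1, h2⟩ := hg (R.par v) v (R.adj v hv).symm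
  obtain ⟨h3, h4⟩ := hg' (R.par v) v (R.adj v hv).symm
  have h5 : ∀ (x : V) (hx : x = g' (R.par v)) (h1 : G.Adj x (g v)),
      c' (ed h1) = c (ed (R.adj v hv).symm) → g v = g' v := by
    rintro x rfl h1 h2
    exact (hc' _).inj h1 h3 (h2.trans h4.symm)
  exact h5 _ ih h1 h2

theorem exists_iso (R : RD G o) (hreg : Reg G d) (c c' : G.edgeSet → Fin d)
    (hc : ∀ v, PA c v) (hc' : ∀ v, PA c' v) :
    ∃ γ : G ≃g G, γ o = o ∧ actE G d γ c = c' ∧ CH c c' γ := by
  obtain ⟨g, hg0, hg⟩ := exists_hom R hreg c c' hc'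
  obtain ⟨k, hk0, hk⟩ := exists_hom R hreg c' c hc
  have h1 : k ∘ g = id := by
    refine hom_unique R c c hc _ _ (by simp [hg0, hk0]) ?_ ?_
    · intro u w h
      obtain ⟨h2, h3⟩ := hg u w h
      obtain ⟨h4, h5⟩ := hk _ _ h2
      exact ⟨h4, h5.trans h3⟩
    · intro u w h
      exact ⟨h, rfl⟩
  have h2 : g ∘ k = id := by
    refine hom_unique R c' c' hc' _ _ (by simp [hg0, hk0]) ?_ ?_
    · intro u w h
      obtain ⟨h2, h3⟩ := hk u w h
      obtain ⟨h4, h5⟩ := hg _ _ h2
      exact ⟨h4, h5.trans h3⟩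
    · intro u w h
      exact ⟨h, rfl⟩
  have h1' : ∀ v, k (g v) = v := fun v => congrFun h1 v
  have h2' : ∀ v, g (k v) = v := fun v => congrFun h2 v
  let γ : G ≃g G :=
    { toFun := g
      invFun := k
      left_inv := h1'
      right_inv := h2'
      map_rel_iff' := by
        intro u w
        constructor
        · intro h
          obtain ⟨h3, _⟩ := hk _ _ h
          have h4 : G.Adj (k (g u)) (k (g w)) := h3
          rwa [h1', h1'] at h4
        · intro h
          exact (hg _ _ h).1 }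
  refine ⟨γ, hg0, ?_, hg⟩
  funext e
  obtain ⟨u, w, h, rfl⟩ := exists_ed e
  obtain ⟨h3, h4⟩ := hk u w h
  exact h4

/-- parent closed finite sets -/
def PC (R : RD G o) (S : Finset V) : Prop := o ∈ S ∧ ∀ v ∈ S, v ≠ o → R.par v ∈ S

theorem PC.of_connected (R : RD G o) (S : Finset V) (ho : o ∈ S)
    (hS : (G.induce (S : Set V)).Connected) : PC R S :=
  ⟨ho, fun v hv hvo => R.conn (S : Set V) hS ho v hv hvo⟩

theorem PC.connected {R : RD G o} {S : Finset V} (hS : PC R S) :
    (G.induce (S : Set V)).Connected := by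
  have h1 : ∀ v (hv : v ∈ (S : Set V)), (G.induce (S : Set V)).Reachable ⟨v, hv⟩ ⟨o, hS.1⟩ := by
    intro v
    refine R.ind (P := fun v => ∀ hv : v ∈ (S : Set V),
      (G.induce (S : Set V)).Reachable ⟨v, hv⟩ ⟨o, hS.1⟩) ?_ ?_ v
    · intro _
      exact SimpleGraph.Reachable.refl _
    · intro v hv ih hvS
      have h2 : R.par v ∈ (S : Set V) := hS.2 v hvS hv
      have h3 : (G.induce (S : Set V)).Adj ⟨v, hvS⟩ ⟨R.par v, h2⟩ := R.adj v hv
      exact h3.reachable.trans (ih h2)
  have : Nonempty (S : Set V) := ⟨⟨o, hS.1⟩⟩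
  refine ⟨?_⟩
  intro a b
  exact (h1 a.1 a.2).trans (h1 b.1 b.2).symm

theorem PC.singleton (R : RD G o) : PC R {o} := by
  refine ⟨Finset.mem_singleton_self o, ?_⟩
  intro v hv hvo
  exact absurd (Finset.mem_singleton.1 hv) hvo

theorem PC.union {R : RD G o} {S T : Finset V} (hS : PC R S) (hT : PC R T) : PC R (S ∪ T) := by
  refine ⟨Finset.mem_union_left _ hS.1, ?_⟩
  intro v hv hvo
  rcases Finset.mem_union.1 hv with h | h
  · exact Finset.mem_union_left _ (hS.2 v h hvo)
  · exact Finset.mem_union_right _ (hT.2 v h hvo)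

theorem PC.insert {R : RD G o} {S : Finset V} (hS : PC R S) {w : V} (hw : R.par w ∈ S) :
    PC R (insert w S) := by
  refine ⟨Finset.mem_insert_of_mem hS.1, ?_⟩
  intro v hv hvo
  rcases Finset.mem_insert.1 hv with rfl | h
  · exact Finset.mem_insert_of_mem hw
  · exact Finset.mem_insert_of_mem (hS.2 v h hvo)

theorem exists_PC_vertex (R : RD G o) (v : V) : ∃ S, PC R S ∧ v ∈ S := by
  refine R.ind (P := fun v => ∃ S, PC R S ∧ v ∈ S) ⟨{o}, PC.singleton R, by simp⟩ ?_ v
  rintro v _ ⟨S, hS, hvS⟩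
  exact ⟨Insert.insert v S, hS.insert hvS, Finset.mem_insert_self _ _⟩

theorem exists_PC (R : RD G o) (F : Finset V) : ∃ S, PC R S ∧ F ⊆ S := by
  induction F using Finset.induction_on with
  | empty => exact ⟨{o}, PC.singleton R, by simp⟩
  | insert v F _ ih =>
    obtain ⟨S, hS, hF⟩ := ih
    obtain ⟨T, hT, hvT⟩ := exists_PC_vertex R v
    refine ⟨S ∪ T, hS.union hT, ?_⟩
    intro x hx
    rcases Finset.mem_insert.1 hx with rfl | h
    · exact Finset.mem_union_right _ hvT
    · exact Finset.mem_union_left _ (hF h)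

/-- induction on parent closed sets -/
theorem PC.ind {R : RD G o} {P : Finset V → Prop} (h0 : P {o})
    (h : ∀ (S : Finset V) (w : V), PC R S → w ∉ S → w ≠ o → R.par w ∈ S → P S →
      P (Insert.insert w S)) : ∀ S, PC R S → P S := by
  have key : ∀ n (S : Finset V), S.card = n → PC R S → P S := by
    intro n
    induction n with
    | zero =>
      intro S hc hS
      rw [Finset.card_eq_zero] at hc
      exact absurd hS.1 (by rw [hc]; simp)
    | succ n ih =>
      intro S hc hS
      by_cases hSo : S = {o}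
      · rw [hSo]; exact h0
      · have h1 : (S.erase o).Nonempty := by
          rw [Finset.nonempty_iff_ne_empty]
          intro h2
          apply hSo
          rw [← Finset.insert_erase hS.1, h2]
          rfl
        obtain ⟨w, hw, hmax⟩ := Finset.exists_max_image (S.erase o) R.lev h1
        have hwo : w ≠ o := (Finset.mem_erase.1 hw).1
        have hwS : w ∈ S := (Finset.mem_erase.1 hw).2
        have hPC : PC R (S.erase w) := by
          refine ⟨Finset.mem_erase.2 ⟨hwo.symm, hS.1⟩, ?_⟩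
          intro v hv hvo
          have hvS := (Finset.mem_erase.1 hv).2
          refine Finset.mem_erase.2 ⟨?_, hS.2 v hvS hvo⟩
          intro h3
          have h4 := hmax v (Finset.mem_erase.2 ⟨hvo, hvS⟩)
          have h5 := R.lev_par v hvo
          rw [h3] at h5
          omega
        have hpw : R.par w ∈ S.erase w := by
          refine Finset.mem_erase.2 ⟨(R.adj w hwo).ne', hS.2 w hwS hwo⟩
        have h6 := h (S.erase w) w hPC (Finset.notMem_erase w S) hwo hpw
          (ih _ (by rw [Finset.card_erase_of_mem hwS, hc]; rfl) hPC)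
        rwa [Finset.insert_erase hwS] at h6
  exact fun S hS => key _ S rfl hS

end FI.Law
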