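import Mathlib

/-!
# Job H (MP_bdd10f_pr): definitions for the invariant measure
-/

set_option autoImplicit false

namespace FI

open MeasureTheory
open scoped Classical

variable {V : Type} (G : SimpleGraph V) (d : ℕ)

/-- `G` is a `d`-regular tree. -/
def IsRegTree : Prop := G.IsTree ∧ ∀ v, (G.neighborSet v).Finite ∧ (G.neighborSet v).ncard = d

/-- proper edge colouring -/
def Proper (c : G.edgeSet → Fin d) : Prop :=
  ∀ e e' : G.edgeSet, e ≠ e' → (∃ v, v ∈ (e : Sym2 V) ∧ v ∈ (e' : Sym2 V)) → c e ≠ c e'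

/-- action of automorphisms on colourings: `(γ c) e = c (γ⁻¹ e)` -/
def actE (γ : G ≃g G) (c : G.edgeSet → Fin d) : G.edgeSet → Fin d :=
  fun e => c (γ.symm.mapEdgeSet e)

/-- action of automorphisms on labels: `(γ ω) v = ω (γ⁻¹ v)` -/
def actV (γ : G ≃g G) (ω : V → unitInterval) : V → unitInterval := fun v => ω (γ.symm v)

/-- the i.i.d. uniform labels -/
noncomputable def iidP (V : Type) : Measure (V → unitInterval) :=
  Measure.infinitePi (fun _ : V => (volume : Measure unitInterval))

/-- `Aut(G)`-factor map -/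
def IsFactorMap (φ : (V → unitInterval) → (G.edgeSet → Fin d)) : Prop :=
  Measurable φ ∧ ∀ γ : G ≃g G, ∀ᵐ ω ∂(iidP V), φ (actV G γ ω) = actE G d γ (φ ω)

/-- factor of i.i.d. -/
def IsFIID (ν : Measure (G.edgeSet → Fin d)) : Prop :=
  ∃ φ, IsFactorMap G d φ ∧ (iidP V).map φ = ν

/-- `μ` is the law of the outward process from the root `o` of the problem: for every finite
connected set `S ∋ o` and every `η` which is injective on the edges at each vertex of `S`, the
probability that the colouring equals `η` on all edges touching `S` is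
`1 / (d! ((d-1)!)^{|S|-1})`. -/
def IsMu (o : V) (μ : Measure (G.edgeSet → Fin d)) : Prop :=
  IsProbabilityMeasure μ ∧
  ∀ (S : Finset V), o ∈ S → (G.induce (S : Set V)).Connected →
  ∀ η : G.edgeSet → Fin d,
    (∀ v ∈ S, ∀ e e' : G.edgeSet, e ≠ e' → v ∈ (e : Sym2 V) → v ∈ (e' : Sym2 V) → η e ≠ η e') →
    μ {c | ∀ e : G.edgeSet, (∃ v ∈ S, v ∈ (e : Sym2 V)) → c e = η e} =
      1 / ((d.factorial : ENNReal) * ((d - 1).factorial : ENNReal) ^ (S.card - 1))

end FI
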