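import Pool.Agent.H99.FI.Final.Comb

/-!
# Extension of partial proper colourings and counting
-/

set_option autoImplicit false

namespace FI.Law

open scoped Classical

variable {V : Type} {G : SimpleGraph V} {d : ℕ} {o : V}

/-- the lower endpoint of an edge -/
theorem RD.exists_child (R : RD G o) (e : G.edgeSet) :
    ∃ v, ∃ hv : v ≠ o, e = ed (R.adj v hv) := by
  obtain ⟨u, w, h, rfl⟩ := exists_ed e
  rcases R.cases u w h with ⟨hu, rfl⟩ | ⟨hw, rfl⟩
  · exact ⟨u, hu, rfl⟩
  · exact ⟨w, hw, ed_symm h⟩

theorem RD.child_inj (R : RD G o) {v v' : V} (hv : v ≠ o) (hv' : v' ≠ o)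
    (h : ed (R.adj v hv) = ed (R.adj v' hv')) : v = v' := by
  have h1 : s(v, R.par v) = s(v', R.par v') := congrArg Subtype.val h
  rcases Sym2.eq_iff.1 h1 with ⟨h2, _⟩ | ⟨h2, h3⟩
  · exact h2
  · exfalso
    have h4 := R.lev_par v hv
    have h5 := R.lev_par v' hv'
    rw [h3] at h4
    rw [← h2] at h5
    omega

/-- local colourings at a vertex -/
theorem exists_local (R : RD G o) (hreg : Reg G d) (S : Finset V) (η : G.edgeSet → Fin d)
    (hη : ∀ v ∈ S, PA η v) (u : V) (k : Fin d) :
    ∃ σ : V → Fin d, Set.InjOn σ (G.neighborSet u) ∧ (u ≠ o → σ (R.par u) = k) ∧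
      (u ∈ S → (∀ hu : u ≠ o, k = η (ed (R.adj u hu))) → ∀ w (h : G.Adj u w), σ w = η (ed h)) := by
  by_cases hS : u ∈ S ∧ ∀ hu : u ≠ o, k = η (ed (R.adj u hu))
  · refine ⟨fun w => if h : G.Adj u w then η (ed h) else k, ?_, ?_, ?_⟩
    · intro a ha b hb hab
      have ha' : G.Adj u a := ha
      have hb' : G.Adj u b := hb
      simp only [ha', hb', dite_true] at hab
      exact (hη u hS.1).inj ha' hb' hab
    · intro hu
      have h1 := R.adj u hu
      simp only [h1, dite_true]
      exact (hS.2 hu).symm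
    · intro _ _ w h
      simp only [h, dite_true]
  · have hfin := hreg.finite u
    have e : Nonempty (G.neighborSet u ≃ Fin d) := by
      refine ⟨Finite.equivFinOfCardEq (hreg.card u)⟩
    obtain ⟨e⟩ := e
    let f : V → Fin d := fun w => if h : G.Adj u w then e ⟨w, h⟩ else k
    have hf : Set.InjOn f (G.neighborSet u) := by
      intro a ha b hb hab
      have ha' : G.Adj u a := ha
      have hb' : G.Adj u b := hb
      simp only [f, ha', hb', dite_true] at hab
      have := e.injective hab
      exact congrArg Subtype.val this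
    refine ⟨fun w => Equiv.swap (f (R.par u)) k (f w), ?_, ?_, ?_⟩
    · intro a ha b hb hab
      exact hf ha hb ((Equiv.swap (f (R.par u)) k).injective hab)
    · intro _
      exact Equiv.swap_apply_left _ _
    · intro h1 h2
      exact absurd ⟨h1, h2⟩ hS

/-- extension of partial proper colourings -/
theorem exists_ext (R : RD G o) (hreg : Reg G d) (S : Finset V) (hS : PC R S)
    (η : G.edgeSet → Fin d) (hη : ∀ v ∈ S, PA η v) :
    ∃ c : G.edgeSet → Fin d, (∀ v, PA c v) ∧
      ∀ v ∈ S, ∀ e : G.edgeSet, v ∈ (e : Sym2 V) → c e = η e := by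
  choose σ hσ1 hσ2 hσ3 using exists_local R hreg S η hη
  by_cases hd : Nonempty (Fin d)
  swap
  · -- no colours: impossible as edges exist, or no edges
    refine ⟨η, ?_, fun v _ e _ => rfl⟩
    intro v e
    exact absurd ⟨η e⟩ hd
  obtain ⟨k0⟩ := hd
  obtain ⟨f, hf0, hf⟩ := R.exists_rec k0 (fun v x => σ (R.par v) x v)
  choose ch hch hche using R.exists_child
  let c : G.edgeSet → Fin d := fun e => f (ch e)
  have hc : ∀ u w (h : G.Adj u w), c (ed h) = σ u (f u) w := by
    intro u w h
    rcases R.cases u w h with ⟨hu, rfl⟩ | ⟨hw, rfl⟩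
    · have h1 : ch (ed h) = u := by
        refine R.child_inj (hch _) hu ?_
        rw [← hche]
      show f (ch (ed h)) = _
      rw [h1, hσ2 u (f u) hu]
    · have h1 : ch (ed h) = w := by
        refine R.child_inj (hch _) hw ?_
        rw [← hche, ed_symm]
      show f (ch (ed h)) = _
      rw [h1]
      exact hf w hw
  refine ⟨c, ?_, ?_⟩
  · intro v e e' hne hv hv'
    obtain ⟨a, ha, rfl⟩ := edge_at e v hv
    obtain ⟨b, hb, rfl⟩ := edge_at e' v hv'
    rw [hc, hc]
    intro h1
    have h2 := hσ1 v (f v) ha hb h1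
    subst h2
    exact hne rfl
  · have key : ∀ v, v ∈ S → (∀ hv : v ≠ o, f v = η (ed (R.adj v hv))) := by
      intro v
      refine R.ind (P := fun v => v ∈ S → (∀ hv : v ≠ o, f v = η (ed (R.adj v hv)))) ?_ ?_ v
      · intro _ h
        exact absurd rfl h
      · intro v hv ih hvS _
        have h1 := ih (hS.2 v hvS hv)
        have h2 := hσ3 (R.par v) (f (R.par v)) (hS.2 v hvS hv) h1 v (R.adj v hv).symm
        rw [hf v hv, h2, ed_symm]
    intro v hv e hve
    obtain ⟨a, ha, rfl⟩ := edge_at e v hve
    rw [hc]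
    exact hσ3 v (f v) hv (key v hv) a ha

/-- edges at a vertex -/
abbrev EA (G : SimpleGraph V) (w : V) := {e : G.edgeSet // w ∈ (e : Sym2 V)}

theorem EA_equiv (G : SimpleGraph V) (w : V) : Nonempty (G.neighborSet w ≃ EA G w) := by
  refine ⟨Equiv.ofBijective (fun u => ⟨ed (G := G) (u := w) (w := u.1) u.2, mem_ed_left _⟩) ⟨?_, ?_⟩⟩
  · intro a b hab
    exact Subtype.ext (ed_inj a.2 b.2 (congrArg Subtype.val hab))
  · rintro ⟨e, he⟩
    obtain ⟨a, ha, rfl⟩ := edge_at e w he
    exact ⟨⟨a, ha⟩, rfl⟩

theorem Reg.finite_EA (hreg : Reg G d) (w : V) : Finite (EA G w) := by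
  obtain ⟨e⟩ := EA_equiv G w
  have := hreg.finite w
  exact Finite.of_equiv _ e

theorem Reg.card_EA (hreg : Reg G d) (w : V) : Nat.card (EA G w) = d := by
  obtain ⟨e⟩ := EA_equiv G w
  rw [← Nat.card_congr e]
  exact hreg.card w

theorem card_inj {α : Type} [Fintype α] (h : Fintype.card α = d) :
    (Finset.univ.filter (fun σ : α → Fin d => Function.Injective σ)).card = d.factorial := by
  have h1 : (Finset.univ.filter (fun σ : α → Fin d => Function.Injective σ)).card =
      Fintype.card (α ↪ Fin d) := by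
    rw [← Fintype.card_subtype]
    exact Fintype.card_congr (Equiv.subtypeInjectiveEquivEmbedding α (Fin d))
  rw [h1, Fintype.card_embedding_eq, Fintype.card_fin, h, Nat.descFactorial_self]

theorem card_inj_fix {α : Type} [Fintype α] (h : Fintype.card α = d) (x : α) (k : Fin d) :
    (Finset.univ.filter (fun σ : α → Fin d => Function.Injective σ ∧ σ x = k)).card =
      (d - 1).factorial := by
  have hd : 0 < d := lt_of_le_of_lt (Nat.zero_le _) k.2
  have h1 : ∀ j : Fin d,
      (Finset.univ.filter (fun σ : α → Fin d => Function.Injective σ ∧ σ x = j)).card =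
      (Finset.univ.filter (fun σ : α → Fin d => Function.Injective σ ∧ σ x = k)).card := by
    intro j
    refine Finset.card_bij' (fun σ _ => fun a => Equiv.swap j k (σ a))
      (fun σ _ => fun a => Equiv.swap j k (σ a)) ?_ ?_ ?_ ?_
    · intro σ hσ
      simp only [Finset.mem_filter, Finset.mem_univ, true_and] at hσ ⊢
      refine ⟨fun a b hab => hσ.1 ((Equiv.swap j k).injective hab), ?_⟩
      rw [hσ.2, Equiv.swap_apply_left]
    · intro σ hσ
      simp only [Finset.mem_filter, Finset.mem_univ, true_and] at hσ ⊢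
      refine ⟨fun a b hab => hσ.1 ((Equiv.swap j k).injective hab), ?_⟩
      rw [hσ.2, Equiv.swap_apply_right]
    · intro σ _
      funext a
      simp
    · intro σ _
      funext a
      simp
  have h2 := Finset.card_eq_sum_card_fiberwise (f := fun σ : α → Fin d => σ x)
    (s := Finset.univ.filter (fun σ : α → Fin d => Function.Injective σ)) (t := Finset.univ)
    (fun _ _ => Finset.mem_coe.2 (Finset.mem_univ _))
  rw [card_inj h] at h2
  have h3 : ∀ j ∈ (Finset.univ : Finset (Fin d)),
      ((Finset.univ.filter (fun σ : α → Fin d => Function.Injective σ)).filter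
        (fun σ => σ x = j)).card =
      (Finset.univ.filter (fun σ : α → Fin d => Function.Injective σ ∧ σ x = k)).card := by
    intro j _
    rw [Finset.filter_filter]
    exact h1 j
  rw [Finset.sum_congr rfl h3, Finset.sum_const, Finset.card_univ, Fintype.card_fin,
    smul_eq_mul] at h2
  obtain ⟨n, rfl⟩ : ∃ n, d = n + 1 := ⟨d - 1, by omega⟩
  rw [Nat.factorial_succ] at h2
  have h4 := Nat.eq_of_mul_eq_mul_left hd h2
  rw [← h4]
  rfl

end FI.Law
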