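import Pool.Agent.H99.FI.Final.Meas

/-!
# Uniqueness of the law and the final assembly (job H of MP_bdd10f_pr)
-/

set_option autoImplicit false

namespace FI.Law

open MeasureTheory
open scoped Classical

variable {V : Type} {G : SimpleGraph V} {d : ℕ} {o : V}

/-- edges touching `S` -/
def TS (G : SimpleGraph V) (S : Finset V) : Set G.edgeSet := {e | ∃ v ∈ S, v ∈ (e : Sym2 V)}

theorem mem_TS {S : Finset V} {e : G.edgeSet} : e ∈ TS G S ↔ ∃ v ∈ S, v ∈ (e : Sym2 V) := Iff.rfl

theorem TS_finite (hreg : Reg G d) (S : Finset V) : (TS G S).Finite := by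
  have h1 : TS G S = ⋃ v ∈ S, Set.range (fun e : EA G v => e.1) := by
    ext e
    rw [mem_TS]
    simp only [Set.mem_iUnion, exists_prop, Set.mem_range, Subtype.exists, exists_eq_right]
  rw [h1]
  refine S.finite_toSet.biUnion ?_
  intro v _
  have := hreg.finite_EA v
  exact Set.finite_range _

theorem ae_PA [Countable G.edgeSet] (R : RD G o) (hreg : Reg G d)
    (ν : Measure (G.edgeSet → Fin d)) [IsProbabilityMeasure ν]
    (hν : ∀ S, PC R S → ∀ η : G.edgeSet → Fin d, (∀ v ∈ S, PA η v) →
      ν (cyl S η) = val d S.card) :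
    ∀ S, PC R S → ∀ᵐ c ∂ν, ∀ v ∈ S, PA c v := by
  intro S hS
  refine PC.ind (R := R) (P := fun S => ∀ᵐ c ∂ν, ∀ v ∈ S, PA c v) ?_ ?_ S hS
  · have hfin := hreg.finite_EA o
    have : Fintype (EA G o) := Fintype.ofFinite _
    have hne : Nonempty (G.edgeSet → Fin d) := by
      by_contra h
      have h1 : (Set.univ : Set (G.edgeSet → Fin d)) = ∅ := by
        refine Set.eq_empty_of_forall_notMem fun c _ => h ⟨c⟩
      have h2 : ν Set.univ = 1 := measure_univ
      rw [h1, measure_empty] at h2
      exact zero_ne_one h2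
    obtain ⟨η⟩ := hne
    have h1 := key_sum ν ∅ η o
    have h2 : cyl (∅ : Finset V) η = Set.univ := by
      refine Set.eq_univ_of_forall fun c => ?_
      rintro e ⟨v, hv, _⟩
      exact absurd hv (Finset.notMem_empty v)
    have h3 : ∀ σ ∈ Sg ∅ η o, ν (cyl (insert o ∅) (upd η o σ)) = val d 1 := by
      intro σ hσ
      have h4 := upd_PA hσ (by simp)
      exact hν {o} (PC.singleton R) _ h4
    rw [h2, Set.univ_inter, Finset.sum_congr rfl h3, Finset.sum_const, card_Sg_empty hreg,
      nsmul_eq_mul, val_one, ENNReal.mul_div_cancel (by exact_mod_cast Nat.factorial_ne_zero _)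
      (ENNReal.natCast_ne_top _)] at h1
    have h5 : ν (PAs G d o)ᶜ = 0 := by
      rw [prob_compl_eq_zero_iff (measurableSet_PAs o)]
      exact h1
    have h6 : ∀ᵐ c ∂ν, c ∈ PAs G d o := h5
    filter_upwards [h6] with c hc v hv
    rw [Finset.mem_singleton.1 hv]
    exact hc
  · intro S w hS hwS hwo hpw ih
    have hfin := hreg.finite_EA w
    have : Fintype (EA G w) := Fintype.ofFinite _
    have hcard : 1 ≤ S.card := Finset.card_pos.2 ⟨o, hS.1⟩
    have key : ∀ η : G.edgeSet → Fin d, (∀ v ∈ S, PA η v) → ν (cyl S η \ PAs G d w) = 0 := by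
      intro η hη
      have h1 := key_sum ν S η w
      have h3 : ∀ σ ∈ Sg S η w, ν (cyl (insert w S) (upd η w σ)) = val d (S.card + 1) := by
        intro σ hσ
        have h4 := upd_PA hσ hη
        rw [hν (insert w S) (hS.insert hpw) _ h4, Finset.card_insert_of_notMem hwS]
      rw [Finset.sum_congr rfl h3, Finset.sum_const, card_Sg_step hreg R S hS η w hwS hwo hpw,
        nsmul_eq_mul, val_succ d S.card hcard, ← hν S hS η hη] at h1
      have h5 := measure_sdiff_add_inter (μ := ν) (cyl S η) (measurableSet_PAs (G := G) (d := d) w)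
      rw [h1] at h5
      have h6 : ν (cyl S η \ PAs G d w) + ν (cyl S η) = 0 + ν (cyl S η) := by
        rw [h5, zero_add]
      exact (ENNReal.add_left_inj (measure_ne_top ν _)).1 h6
    have hfT : Finite (TS G S) := TS_finite hreg S
    have h7 : ν {c | (∀ v ∈ S, PA c v) ∧ ¬ PA c w} = 0 := by
      have h8 : {c : G.edgeSet → Fin d | (∀ v ∈ S, PA c v) ∧ ¬ PA c w} ⊆
          ⋃ r : TS G S → Fin d, {c | (∀ v ∈ S, PA c v) ∧ ¬ PA c w ∧ ∀ e : TS G S, c e.1 = r e} := by
        rintro c ⟨h9, h10⟩
        refine Set.mem_iUnion.2 ⟨fun e => c e.1, h9, h10, fun e => rfl⟩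
      refine measure_mono_null h8 (measure_iUnion_null ?_)
      intro r
      by_cases hr : ∃ η : G.edgeSet → Fin d, (∀ v ∈ S, PA η v) ∧ ∀ e : TS G S, η e.1 = r e
      · obtain ⟨η, hη, hηr⟩ := hr
        refine measure_mono_null ?_ (key η hη)
        rintro c ⟨_, h10, h11⟩
        refine ⟨?_, h10⟩
        intro e he
        rw [h11 ⟨e, he⟩, hηr ⟨e, he⟩]
      · refine measure_mono_null ?_ (measure_empty (μ := ν))
        rintro c ⟨h9, _, h11⟩
        exact hr ⟨c, h9, h11⟩
    have h8 : ∀ᵐ c ∂ν, ¬ ((∀ v ∈ S, PA c v) ∧ ¬ PA c w) := by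
      refine measure_mono_null ?_ h7
      intro c hc
      exact not_not.1 hc
    filter_upwards [ih, h8] with c hc hc2 v hv
    rcases Finset.mem_insert.1 hv with rfl | h
    · by_contra h12
      exact hc2 ⟨hc, h12⟩
    · exact hc v h

theorem exists_PC_edges (R : RD G o) (I : Finset G.edgeSet) :
    ∃ S, PC R S ∧ ∀ e ∈ I, e ∈ TS G S := by
  have h1 : ∀ e : G.edgeSet, ∃ v, v ∈ (e : Sym2 V) := by
    intro e
    obtain ⟨u, w, h, rfl⟩ := exists_ed e
    exact ⟨u, mem_ed_left _⟩
  choose f hf using h1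
  obtain ⟨S, hS, hSI⟩ := exists_PC R (I.image f)
  exact ⟨S, hS, fun e he => ⟨f e, hSI (Finset.mem_image_of_mem f he), hf e⟩⟩

theorem H2 [Countable G.edgeSet] (R : RD G o) (hreg : Reg G d)
    (μ ν : Measure (G.edgeSet → Fin d)) [IsProbabilityMeasure μ] [IsProbabilityMeasure ν]
    (hμ : ∀ S, PC R S → ∀ η : G.edgeSet → Fin d, (∀ v ∈ S, PA η v) →
      μ (cyl S η) = val d S.card)
    (hν : ∀ S, PC R S → ∀ η : G.edgeSet → Fin d, (∀ v ∈ S, PA η v) →
      ν (cyl S η) = val d S.card) : μ = ν := by
  have hlim : IsProjectiveLimit μ (fun I => ν.map I.restrict) := by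
    intro I
    obtain ⟨S, hS, hI⟩ := exists_PC_edges R I
    let J : Finset G.edgeSet := (TS_finite hreg S).toFinset
    have hJ : ∀ e, e ∈ J ↔ e ∈ TS G S := fun e => Set.Finite.mem_toFinset _
    have hIJ : I ⊆ J := fun e he => (hJ e).2 (hI e he)
    have h1 : μ.map J.restrict = ν.map J.restrict := by
      refine Measure.ext_of_singleton ?_
      intro r
      rw [Measure.map_apply (Finset.measurable_restrict J) (measurableSet_singleton r),
        Measure.map_apply (Finset.measurable_restrict J) (measurableSet_singleton r)]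
      by_cases hr : ∃ η : G.edgeSet → Fin d, (∀ v ∈ S, PA η v) ∧ J.restrict η = r
      · obtain ⟨η, hη, hηr⟩ := hr
        have h2 : (J.restrict (π := fun _ : G.edgeSet => Fin d)) ⁻¹' {r} = cyl S η := by
          ext c
          rw [Set.mem_preimage, Set.mem_singleton_iff, ← hηr, mem_cyl]
          constructor
          · intro h e he
            exact congrFun h ⟨e, (hJ e).2 he⟩
          · intro h
            funext e
            exact h e.1 ((hJ e.1).1 e.2)
        rw [h2, hμ S hS η hη, hν S hS η hη]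
      · have h3 : ∀ (ρ : Measure (G.edgeSet → Fin d)), (∀ᵐ c ∂ρ, ∀ v ∈ S, PA c v) →
            ρ ((J.restrict (π := fun _ : G.edgeSet => Fin d)) ⁻¹' {r}) = 0 := by
          intro ρ hρ
          refine measure_mono_null ?_ hρ
          intro c hc h4
          exact hr ⟨c, h4, hc⟩
        rw [h3 μ (ae_PA R hreg μ hμ S hS), h3 ν (ae_PA R hreg ν hν S hS)]
    have h2 := Finset.restrict₂_comp_restrict (π := fun _ : G.edgeSet => Fin d) hIJ
    show μ.map I.restrict = ν.map I.restrict
    rw [← h2, ← Measure.map_map (Finset.measurable_restrict₂ hIJ) (Finset.measurable_restrict J),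
      ← Measure.map_map (Finset.measurable_restrict₂ hIJ) (Finset.measurable_restrict J), h1]
  have hlim2 : IsProjectiveLimit ν (fun I => ν.map I.restrict) := fun I => rfl
  have : ∀ I : Finset G.edgeSet, IsFiniteMeasure (ν.map I.restrict) := fun I => by infer_instance
  exact hlim.unique hlim2

end FI.Law

namespace FI

open MeasureTheory
open scoped Classical
open FI.Law

variable {V : Type} (G : SimpleGraph V) (d : ℕ)

/-- the vertex set of a regular tree is countable -/
theorem countable_of_regTree (hG : IsRegTree G d) : Countable V := by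
  by_cases h : Nonempty V
  · obtain ⟨o⟩ := h
    obtain ⟨R⟩ := exists_RD G hG.1 o
    exact R.countable hG.2
  · rw [not_nonempty_iff] at h
    infer_instance

/-- H1. invariance + proper a.s. implies the explicit law. -/
theorem isMu_of_invariant (hG : IsRegTree G d) (o : V)
    (ν : Measure (G.edgeSet → Fin d)) [IsProbabilityMeasure ν]
    (hprop : ∀ᵐ c ∂ν, Proper G d c)
    (hinv : ∀ γ : G ≃g G, ν.map (actE G d γ) = ν) : IsMu G d o ν := by
  obtain ⟨R⟩ := exists_RD G hG.1 o
  have : Countable V := countable_of_regTree G d hG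
  have : Countable G.edgeSet := countable_edges
  refine ⟨inferInstance, ?_⟩
  intro S ho hS η hη
  exact H1 R hG.2 ν hprop hinv S (PC.of_connected R S ho hS) η hη

theorem isMu_PC (o : V) (R : RD G o)
    (ν : Measure (G.edgeSet → Fin d)) (hν : IsMu G d o ν) :
    ∀ S, PC R S → ∀ η : G.edgeSet → Fin d, (∀ v ∈ S, PA η v) → ν (cyl S η) = val d S.card := by
  intro S hS η hη
  exact hν.2 S hS.1 hS.connected η hη

/-- H2. uniqueness -/
theorem isMu_unique (hG : IsRegTree G d) (o : V)
    (μ ν : Measure (G.edgeSet → Fin d)) (hμ : IsMu G d o μ) (hν : IsMu G d o ν) : μ = ν := by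
  obtain ⟨R⟩ := exists_RD G hG.1 o
  have : Countable V := countable_of_regTree G d hG
  have : Countable G.edgeSet := countable_edges
  have := hμ.1
  have := hν.1
  exact H2 R hG.2 μ ν (isMu_PC G d o R μ hμ) (isMu_PC G d o R ν hν)

theorem measurable_actV (γ : G ≃g G) : Measurable (actV G γ) := by
  refine measurable_pi_iff.2 fun v => ?_
  exact measurable_pi_apply (γ.symm v)

theorem iidP_map_actV (γ : G ≃g G) : (iidP V).map (actV G γ) = iidP V := by
  have h := Measure.map_infinitePi_infinitePi_of_inj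
    (P := fun _ : V => (volume : Measure unitInterval)) (f := fun v => γ.symm v)
    γ.symm.injective
  exact h

instance : IsProbabilityMeasure (iidP V) := by
  unfold iidP
  infer_instance

theorem measurableSet_proper [Countable V] [Countable G.edgeSet] :
    MeasurableSet {c : G.edgeSet → Fin d | Proper G d c} := by
  have h1 : {c : G.edgeSet → Fin d | Proper G d c} = ⋂ v : V, PAs G d v := by
    ext c
    rw [Set.mem_iInter]
    exact proper_iff c
  rw [h1]
  exact MeasurableSet.iInter fun v => measurableSet_PAs v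

/-- H3. final assembly: from a factor map with proper values. -/
theorem final_of_factor (hG : IsRegTree G d)
    (main : ∃ φ, IsFactorMap G d φ ∧ ∀ᵐ ω ∂(iidP V), Proper G d (φ ω)) :
    ∃ μ : Measure (G.edgeSet → Fin d),
      IsProbabilityMeasure μ ∧ (∀ᵐ c ∂μ, Proper G d c) ∧ (∀ γ : G ≃g G, μ.map (actE G d γ) = μ) ∧
      (∀ o, IsMu G d o μ) ∧ (∀ o μ', IsMu G d o μ' → μ' = μ) ∧
      (∀ ν : Measure (G.edgeSet → Fin d), IsProbabilityMeasure ν → (∀ᵐ c ∂ν, Proper G d c) →
        (∀ γ : G ≃g G, ν.map (actE G d γ) = ν) → ν = μ) ∧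
      IsFIID G d μ := by
  have : Countable V := countable_of_regTree G d hG
  have : Countable G.edgeSet := countable_edges
  obtain ⟨φ, hφ, hφp⟩ := main
  have hprob : IsProbabilityMeasure ((iidP V).map φ) :=
    Measure.isProbabilityMeasure_map hφ.1.aemeasurable
  have hproper : ∀ᵐ c ∂((iidP V).map φ), Proper G d c := by
    rw [ae_map_iff hφ.1.aemeasurable (measurableSet_proper G d)]
    exact hφp
  have hinv : ∀ γ : G ≃g G, ((iidP V).map φ).map (actE G d γ) = (iidP V).map φ := by
    intro γ
    rw [Measure.map_map (measurable_actE γ) hφ.1]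
    have h1 : (iidP V).map (actE G d γ ∘ φ) = (iidP V).map (φ ∘ actV G γ) := by
      refine Measure.map_congr ?_
      filter_upwards [hφ.2 γ] with ω hω
      exact hω.symm
    rw [h1, ← Measure.map_map hφ.1 (measurable_actV G γ), iidP_map_actV]
  have hmu : ∀ o, IsMu G d o ((iidP V).map φ) := fun o =>
    isMu_of_invariant G d hG o _ hproper hinv
  obtain ⟨o⟩ : Nonempty V := hG.1.connected.nonempty
  refine ⟨(iidP V).map φ, hprob, hproper, hinv, hmu, ?_, ?_, ⟨φ, hφ, rfl⟩⟩
  · intro o μ' hμ'
    exact isMu_unique G d hG o μ' _ hμ' (hmu o)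
  · intro ν hν1 hν2 hν3
    exact isMu_unique G d hG o ν _ (isMu_of_invariant G d hG o ν hν2 hν3) (hmu o)

end FI
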