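import Pool.Agent.H99.FI.Final.Ext

/-!
# Cylinder probabilities of invariant laws carried by proper colourings
-/

set_option autoImplicit false

namespace FI.Law

open MeasureTheory
open scoped Classical

variable {V : Type} {G : SimpleGraph V} {d : ℕ} {o : V}

theorem RD.countable (R : RD G o) (hreg : Reg G d) : Countable V := by
  have h : ∀ n : ℕ, (R.lev ⁻¹' {n}).Countable := by
    intro n
    induction n with
    | zero =>
      refine (Set.countable_singleton o).mono ?_
      intro v hv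
      by_contra hvo
      have := R.lev_par v hvo
      have hv' : R.lev v = 0 := hv
      omega
    | succ n ih =>
      refine (ih.biUnion (t := fun u _ => G.neighborSet u)
        (fun u _ => (hreg u).1.countable)).mono ?_
      intro v hv
      have hv' : R.lev v = n + 1 := hv
      have hvo : v ≠ o := by
        rintro rfl
        rw [R.lev_o] at hv'
        omega
      have := R.lev_par v hvo
      simp only [Set.mem_iUnion]
      exact ⟨R.par v, show R.lev (R.par v) = n by omega, (R.adj v hvo).symm⟩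
  have h2 : (Set.univ : Set V).Countable := by
    refine (Set.countable_iUnion h).mono ?_
    intro v _
    simp
  exact Set.countable_univ_iff.1 h2

theorem countable_edges [Countable V] : Countable G.edgeSet := by
  have h : Countable (Sym2 V) := by
    have h1 : Function.Surjective (fun p : V × V => s(p.1, p.2)) := by
      intro e
      induction e using Sym2.ind with
      | _ u w => exact ⟨(u, w), rfl⟩
    exact h1.countable
  infer_instance

/-- the cylinder of `η` on `S` -/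
def cyl (S : Finset V) (η : G.edgeSet → Fin d) : Set (G.edgeSet → Fin d) :=
  {c | ∀ e : G.edgeSet, (∃ v ∈ S, v ∈ (e : Sym2 V)) → c e = η e}

theorem mem_cyl {S : Finset V} {η c : G.edgeSet → Fin d} :
    c ∈ cyl S η ↔ ∀ e : G.edgeSet, (∃ v ∈ S, v ∈ (e : Sym2 V)) → c e = η e := Iff.rfl

/-- colourings proper at `v` -/
def PAs (G : SimpleGraph V) (d : ℕ) (v : V) : Set (G.edgeSet → Fin d) := {c | PA c v}

theorem mem_PAs {c : G.edgeSet → Fin d} {v : V} : c ∈ PAs G d v ↔ PA c v := Iff.rfl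

theorem meas_eq (e : G.edgeSet) (k : Fin d) :
    MeasurableSet ((fun c : G.edgeSet → Fin d => c e) ⁻¹' {k}) :=
  measurable_pi_apply e (measurableSet_singleton k)

theorem measurableSet_cyl [Countable G.edgeSet] (S : Finset V) (η : G.edgeSet → Fin d) :
    MeasurableSet (cyl S η) := by
  have : cyl S η = ⋂ e : G.edgeSet, ⋂ _ : (∃ v ∈ S, v ∈ (e : Sym2 V)),
      ((fun c : G.edgeSet → Fin d => c e) ⁻¹' {η e}) := by
    ext c
    simp only [mem_cyl, Set.mem_iInter, Set.mem_preimage, Set.mem_singleton_iff]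
  rw [this]
  exact MeasurableSet.iInter fun e => MeasurableSet.iInter fun _ => meas_eq e _

theorem measurableSet_PAs [Countable G.edgeSet] (v : V) : MeasurableSet (PAs G d v) := by
  have : PAs G d v = ⋂ e : G.edgeSet, ⋂ e' : G.edgeSet, ⋂ _ : e ≠ e',
      ⋂ _ : v ∈ (e : Sym2 V), ⋂ _ : v ∈ (e' : Sym2 V),
      {c : G.edgeSet → Fin d | c e = c e'}ᶜ := by
    ext c
    simp only [mem_PAs, Set.mem_iInter]
    rfl
  rw [this]
  exact MeasurableSet.iInter fun e => MeasurableSet.iInter fun e' => MeasurableSet.iInter fun _ =>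
    MeasurableSet.iInter fun _ => MeasurableSet.iInter fun _ =>
      (measurableSet_eq_fun (measurable_pi_apply e) (measurable_pi_apply e')).compl

theorem cyl_congr {S : Finset V} {η c : G.edgeSet → Fin d}
    (h : ∀ v ∈ S, ∀ e : G.edgeSet, v ∈ (e : Sym2 V) → c e = η e) : cyl S c = cyl S η := by
  ext x
  rw [mem_cyl, mem_cyl]
  constructor
  · rintro hx e ⟨v, hv, hve⟩
    rw [hx e ⟨v, hv, hve⟩, h v hv e hve]
  · rintro hx e ⟨v, hv, hve⟩
    rw [hx e ⟨v, hv, hve⟩, h v hv e hve]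

/-- override `η` on the edges at `w` -/
noncomputable def upd (η : G.edgeSet → Fin d) (w : V) (σ : EA G w → Fin d) : G.edgeSet → Fin d :=
  fun e => if h : w ∈ (e : Sym2 V) then σ ⟨e, h⟩ else η e

theorem upd_mem (η : G.edgeSet → Fin d) (w : V) (σ : EA G w → Fin d) (e : G.edgeSet)
    (h : w ∈ (e : Sym2 V)) : upd η w σ e = σ ⟨e, h⟩ := dif_pos h

theorem upd_notMem (η : G.edgeSet → Fin d) (w : V) (σ : EA G w → Fin d) (e : G.edgeSet)
    (h : w ∉ (e : Sym2 V)) : upd η w σ e = η e := dif_neg h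

/-- admissible local colourings at `w` -/
noncomputable def Sg (S : Finset V) (η : G.edgeSet → Fin d) (w : V) [Fintype (EA G w)] :
    Finset (EA G w → Fin d) :=
  Finset.univ.filter (fun σ => Function.Injective σ ∧
    ∀ e : EA G w, (∃ v ∈ S, v ∈ (e.1 : Sym2 V)) → σ e = η e.1)

theorem mem_Sg {S : Finset V} {η : G.edgeSet → Fin d} {w : V} [Fintype (EA G w)]
    {σ : EA G w → Fin d} : σ ∈ Sg S η w ↔ Function.Injective σ ∧
      ∀ e : EA G w, (∃ v ∈ S, v ∈ (e.1 : Sym2 V)) → σ e = η e.1 := by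
  simp only [Sg, Finset.mem_filter, Finset.mem_univ, true_and]

theorem upd_agree {S : Finset V} {η : G.edgeSet → Fin d} {w : V} [Fintype (EA G w)]
    {σ : EA G w → Fin d} (hσ : σ ∈ Sg S η w) :
    ∀ v ∈ S, ∀ e : G.edgeSet, v ∈ (e : Sym2 V) → upd η w σ e = η e := by
  intro v hv e hve
  by_cases hw : w ∈ (e : Sym2 V)
  · rw [upd_mem η w σ e hw]
    exact (mem_Sg.1 hσ).2 ⟨e, hw⟩ ⟨v, hv, hve⟩
  · exact upd_notMem η w σ e hw

theorem PA_congr {η c : G.edgeSet → Fin d} {v : V}
    (h : ∀ e : G.edgeSet, v ∈ (e : Sym2 V) → c e = η e) (hη : PA η v) : PA c v := by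
  intro e e' hne hv hv'
  rw [h e hv, h e' hv']
  exact hη e e' hne hv hv'

theorem upd_PA {S : Finset V} {η : G.edgeSet → Fin d} {w : V} [Fintype (EA G w)]
    {σ : EA G w → Fin d} (hσ : σ ∈ Sg S η w) (hη : ∀ v ∈ S, PA η v) :
    ∀ v ∈ insert w S, PA (upd η w σ) v := by
  intro v hv
  rcases Finset.mem_insert.1 hv with rfl | h
  · intro e e' hne h1 h2
    rw [upd_mem _ _ _ _ h1, upd_mem _ _ _ _ h2]
    intro h3
    exact hne (congrArg Subtype.val ((mem_Sg.1 hσ).1 h3))
  · exact PA_congr (upd_agree hσ v h) (hη v h)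

theorem key_sum [Countable G.edgeSet] (ν : Measure (G.edgeSet → Fin d)) (S : Finset V)
    (η : G.edgeSet → Fin d) (w : V) [Fintype (EA G w)] :
    ν (cyl S η ∩ PAs G d w) = ∑ σ ∈ Sg S η w, ν (cyl (insert w S) (upd η w σ)) := by
  have h1 : cyl S η ∩ PAs G d w = ⋃ σ ∈ Sg S η w, cyl (insert w S) (upd η w σ) := by
    ext c
    simp only [Set.mem_inter_iff, Set.mem_iUnion, exists_prop]
    constructor
    · rintro ⟨hc, hp⟩
      refine ⟨fun e => c e.1, mem_Sg.2 ⟨?_, ?_⟩, ?_⟩
      · intro a b hab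
        by_contra hne
        exact hp a.1 b.1 (fun h => hne (Subtype.ext h)) a.2 b.2 hab
      · intro e he
        exact hc e.1 he
      · rintro e ⟨v, hv, hve⟩
        by_cases hw : w ∈ (e : Sym2 V)
        · rw [upd_mem _ _ _ _ hw]
        · rw [upd_notMem _ _ _ _ hw]
          rcases Finset.mem_insert.1 hv with rfl | h
          · exact absurd hve hw
          · exact hc e ⟨v, h, hve⟩
    · rintro ⟨σ, hσ, hc⟩
      constructor
      · rintro e ⟨v, hv, hve⟩
        rw [hc e ⟨v, Finset.mem_insert_of_mem hv, hve⟩]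
        exact upd_agree hσ v hv e hve
      · intro e e' hne h1 h2
        rw [hc e ⟨w, Finset.mem_insert_self _ _, h1⟩, hc e' ⟨w, Finset.mem_insert_self _ _, h2⟩,
          upd_mem _ _ _ _ h1, upd_mem _ _ _ _ h2]
        intro h3
        exact hne (congrArg Subtype.val ((mem_Sg.1 hσ).1 h3))
  rw [h1, measure_biUnion_finset]
  · intro σ _ τ _ hne
    refine Set.disjoint_left.2 ?_
    intro c h2 h3
    apply hne
    funext e
    have h4 := h2 e.1 ⟨w, Finset.mem_insert_self _ _, e.2⟩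
    have h5 := h3 e.1 ⟨w, Finset.mem_insert_self _ _, e.2⟩
    rw [upd_mem _ _ _ _ e.2] at h4 h5
    exact h4.symm.trans h5
  · intro σ _
    exact measurableSet_cyl _ _

theorem card_Sg_empty (hreg : Reg G d) (η : G.edgeSet → Fin d) (w : V) [Fintype (EA G w)] :
    (Sg ∅ η w).card = d.factorial := by
  have h1 : Sg ∅ η w = Finset.univ.filter (fun σ : EA G w → Fin d => Function.Injective σ) := by
    ext σ
    rw [mem_Sg]
    simp
  have h2 : Fintype.card (EA G w) = d := by
    rw [← Nat.card_eq_fintype_card]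
    exact hreg.card_EA w
  rw [h1]
  refine Eq.trans (congrArg Finset.card ?_) (card_inj (α := EA G w) h2)
  ext σ
  simp only [Finset.mem_filter, Finset.mem_univ, true_and]

theorem card_Sg_step (hreg : Reg G d) (R : RD G o) (S : Finset V) (hS : PC R S)
    (η : G.edgeSet → Fin d) (w : V) (hwS : w ∉ S) (hwo : w ≠ o) (hpw : R.par w ∈ S)
    [Fintype (EA G w)] : (Sg S η w).card = (d - 1).factorial := by
  have h0 : w ∈ (ed (R.adj w hwo) : Sym2 V) := mem_ed_left _
  have h1 : Sg S η w = Finset.univ.filter (fun σ : EA G w → Fin d => Function.Injective σ ∧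
      σ ⟨ed (R.adj w hwo), h0⟩ = η (ed (R.adj w hwo))) := by
    ext σ
    rw [mem_Sg]
    simp only [Finset.mem_filter, Finset.mem_univ, true_and]
    refine and_congr_right fun _ => ?_
    constructor
    · intro h
      exact h ⟨ed (R.adj w hwo), h0⟩ ⟨R.par w, hpw, mem_ed_right _⟩
    · rintro h ⟨e, he⟩ ⟨v, hv, hve⟩
      obtain ⟨a, ha, rfl⟩ := edge_at e w he
      have hav : v = a := by
        rcases (mem_ed ha).1 hve with h2 | h2
        · exact absurd (h2 ▸ hv) hwS
        · exact h2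
      subst hav
      rcases R.cases w v ha with ⟨_, h3⟩ | ⟨h3, h4⟩
      · subst h3
        exact h
      · exact absurd (h4 ▸ hS.2 v hv h3) hwS
  have h2 : Fintype.card (EA G w) = d := by
    rw [← Nat.card_eq_fintype_card]
    exact hreg.card_EA w
  rw [h1]
  refine Eq.trans (congrArg Finset.card ?_)
    (card_inj_fix (α := EA G w) h2 ⟨ed (R.adj w hwo), h0⟩ (η (ed (R.adj w hwo))))
  ext σ
  simp only [Finset.mem_filter, Finset.mem_univ, true_and]

theorem measurable_actE (γ : G ≃g G) : Measurable (actE G d γ) := by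
  refine measurable_pi_iff.2 fun e => ?_
  exact measurable_pi_apply (γ.symm.mapEdgeSet e)

theorem touch_symm (γ : G ≃g G) (S : Finset V) (hγ : ∀ v, γ v ∈ S ↔ v ∈ S) (e : G.edgeSet) :
    (∃ v ∈ S, v ∈ ((γ.symm.mapEdgeSet e : G.edgeSet) : Sym2 V)) ↔
      ∃ v ∈ S, v ∈ (e : Sym2 V) := by
  obtain ⟨u, w, h, rfl⟩ := exists_ed e
  have h1 : ((γ.symm.mapEdgeSet (ed h) : G.edgeSet) : Sym2 V) = s(γ.symm u, γ.symm w) := rfl
  have hγ' : ∀ v, γ.symm v ∈ S ↔ v ∈ S := by
    intro v
    rw [← hγ (γ.symm v)]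
    simp
  rw [h1]
  constructor
  · rintro ⟨v, hv, hve⟩
    rcases Sym2.mem_iff.1 hve with rfl | rfl
    · exact ⟨u, (hγ' u).1 hv, mem_ed_left _⟩
    · exact ⟨w, (hγ' w).1 hv, mem_ed_right _⟩
  · rintro ⟨v, hv, hve⟩
    rcases (mem_ed h).1 hve with rfl | rfl
    · exact ⟨γ.symm v, (hγ' v).2 hv, Sym2.mem_mk_left _ _⟩
    · exact ⟨γ.symm v, (hγ' v).2 hv, Sym2.mem_mk_right _ _⟩

theorem inv_cyl [Countable G.edgeSet] {ν : Measure (G.edgeSet → Fin d)}
    (hinv : ∀ γ : G ≃g G, ν.map (actE G d γ) = ν) (γ : G ≃g G) (S : Finset V)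
    (hγ : ∀ v, γ v ∈ S ↔ v ∈ S) (c : G.edgeSet → Fin d) :
    ν (cyl S (actE G d γ c)) = ν (cyl S c) := by
  conv_lhs => rw [← hinv γ]
  rw [Measure.map_apply (measurable_actE γ) (measurableSet_cyl _ _)]
  congr 1
  ext x
  rw [Set.mem_preimage, mem_cyl, mem_cyl]
  constructor
  · intro h e he
    have h1 := h (γ.mapEdgeSet e)
    have h2 : γ.symm.mapEdgeSet (γ.mapEdgeSet e) = e := γ.mapEdgeSet.symm_apply_apply e
    have h3 := (touch_symm γ S hγ (γ.mapEdgeSet e)).1 (by rw [h2]; exact he)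
    have h4 := h1 h3
    unfold actE at h4
    rwa [h2] at h4
  · intro h e he
    exact h (γ.symm.mapEdgeSet e) ((touch_symm γ S hγ e).2 he)

theorem sym_eq [Countable G.edgeSet] (R : RD G o) (hreg : Reg G d)
    {ν : Measure (G.edgeSet → Fin d)} (hinv : ∀ γ : G ≃g G, ν.map (actE G d γ) = ν)
    (S : Finset V) (hS : PC R S) (η η' : G.edgeSet → Fin d) (hη : ∀ v ∈ S, PA η v)
    (hη' : ∀ v ∈ S, PA η' v)
    (hfix : ∀ (c c' : G.edgeSet → Fin d) (γ : G ≃g G), (∀ v, PA c v) → (∀ v, PA c' v) →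
      (∀ v ∈ S, ∀ e : G.edgeSet, v ∈ (e : Sym2 V) → c e = η e) →
      (∀ v ∈ S, ∀ e : G.edgeSet, v ∈ (e : Sym2 V) → c' e = η' e) → γ o = o → CH c c' γ →
      ∀ v, γ v ∈ S ↔ v ∈ S) :
    ν (cyl S η) = ν (cyl S η') := by
  obtain ⟨c, hc, hcη⟩ := exists_ext R hreg S hS η hη
  obtain ⟨c', hc', hcη'⟩ := exists_ext R hreg S hS η' hη'
  obtain ⟨γ, hγo, hγc, hγ⟩ := exists_iso R hreg c c' hc hc'
  have h1 := hfix c c' γ hc hc' hcη hcη' hγo hγ
  rw [← cyl_congr hcη, ← cyl_congr hcη', ← hγc, inv_cyl hinv γ S h1]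

theorem fix_of_agree (R : RD G o) (S : Finset V) (hS : PC R S) (w : V) (hpw : R.par w ∈ S)
    (c c' : G.edgeSet → Fin d) (γ : G ≃g G) (hc' : ∀ v, PA c' v)
    (hag : ∀ v ∈ S, ∀ e : G.edgeSet, v ∈ (e : Sym2 V) → c e = c' e)
    (hγo : γ o = o) (hγ : CH c c' γ) : ∀ v ∈ insert w S, γ v = v := by
  intro v
  refine R.ind (P := fun v => v ∈ insert w S → γ v = v) (fun _ => hγo) ?_ v
  intro v hv ih hvS
  have hp : R.par v ∈ S := by
    rcases Finset.mem_insert.1 hvS with rfl | h
    · exact hpw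
    · exact hS.2 v h hv
  have h1 := ih (Finset.mem_insert_of_mem hp)
  obtain ⟨h2, h3⟩ := hγ (R.par v) v (R.adj v hv).symm
  have h4 : ∀ (x : V) (_ : x = R.par v) (h2 : G.Adj x (γ v)),
      c' (ed h2) = c (ed (R.adj v hv).symm) → γ v = v := by
    rintro x rfl h2 h3
    refine (hc' _).inj h2 (R.adj v hv).symm ?_
    rw [h3]
    exact hag _ hp _ (mem_ed_left _)
  exact h4 _ h1 h2 h3

theorem fix_iff {S : Finset V} {γ : G ≃g G} (h : ∀ v ∈ S, γ v = v) : ∀ v, γ v ∈ S ↔ v ∈ S := by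
  intro v
  constructor
  · intro hv
    have h1 := h _ hv
    have h2 : γ v = v := γ.injective h1
    rwa [h2] at hv
  · intro hv
    rwa [h v hv]

/-- the explicit value -/
noncomputable def val (d n : ℕ) : ENNReal :=
  1 / ((d.factorial : ENNReal) * ((d - 1).factorial : ENNReal) ^ (n - 1))

theorem val_one (d : ℕ) : val d 1 = 1 / (d.factorial : ENNReal) := by
  simp [val]

theorem val_succ (d n : ℕ) (hn : 1 ≤ n) :
    ((d - 1).factorial : ENNReal) * val d (n + 1) = val d n := by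
  obtain ⟨m, rfl⟩ : ∃ m, n = m + 1 := ⟨n - 1, by omega⟩
  unfold val
  have h0 : ((d - 1).factorial : ENNReal) ≠ 0 := by
    exact_mod_cast (Nat.factorial_ne_zero _)
  have h1 : ((d - 1).factorial : ENNReal) ≠ ⊤ := ENNReal.natCast_ne_top _
  have h2 : (d.factorial : ENNReal) ≠ 0 := by
    exact_mod_cast (Nat.factorial_ne_zero _)
  have h3 : (d.factorial : ENNReal) ≠ ⊤ := ENNReal.natCast_ne_top _
  rw [show m + 1 + 1 - 1 = m + 1 from rfl, show m + 1 - 1 = m from rfl, pow_succ]
  rw [one_div, one_div, ← mul_assoc, ENNReal.mul_inv (Or.inr h1) (Or.inr h0),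
    mul_comm ((d - 1).factorial : ENNReal), mul_assoc,
    ENNReal.inv_mul_cancel h0 h1, mul_one]

theorem H1 [Countable G.edgeSet] (R : RD G o) (hreg : Reg G d)
    (ν : Measure (G.edgeSet → Fin d)) [IsProbabilityMeasure ν]
    (hprop : ∀ᵐ c ∂ν, Proper G d c)
    (hinv : ∀ γ : G ≃g G, ν.map (actE G d γ) = ν) :
    ∀ S, PC R S → ∀ η : G.edgeSet → Fin d, (∀ v ∈ S, PA η v) → ν (cyl S η) = val d S.card := by
  have hPA : ∀ (w : V) (A : Set (G.edgeSet → Fin d)), ν (A ∩ PAs G d w) = ν A := by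
    intro w A
    refine measure_congr ?_
    filter_upwards [hprop] with c hc
    refine propext ⟨fun h => h.1, fun h => ⟨h, ((proper_iff c).1 hc w)⟩⟩
  intro S hS
  refine PC.ind (R := R) (P := fun S => ∀ η : G.edgeSet → Fin d, (∀ v ∈ S, PA η v) →
    ν (cyl S η) = val d S.card) ?_ ?_ S hS
  · intro η hη
    have hfin := hreg.finite_EA o
    have : Fintype (EA G o) := Fintype.ofFinite _
    have h1 := key_sum ν ∅ η o
    rw [hPA] at h1
    have h2 : cyl (∅ : Finset V) η = Set.univ := by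
      refine Set.eq_univ_of_forall fun c => ?_
      rintro e ⟨v, hv, _⟩
      exact absurd hv (Finset.notMem_empty v)
    rw [h2, measure_univ] at h1
    have h3 : ∀ σ ∈ Sg ∅ η o, ν (cyl (insert o ∅) (upd η o σ)) = ν (cyl {o} η) := by
      intro σ hσ
      refine sym_eq R hreg hinv {o} (PC.singleton R) (upd η o σ) η (upd_PA hσ (by simp)) hη ?_
      intro c c' γ _ _ _ _ hγ _
      refine fix_iff ?_
      intro v hv
      rw [Finset.mem_singleton.1 hv]
      exact hγ
    rw [Finset.sum_congr rfl h3, Finset.sum_const, card_Sg_empty hreg, nsmul_eq_mul] at h1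
    show ν (cyl {o} η) = val d 1
    rw [val_one, ENNReal.eq_div_iff]
    · exact h1.symm
    · exact_mod_cast (Nat.factorial_ne_zero _)
    · exact ENNReal.natCast_ne_top _
  · intro S w hS hwS hwo hpw ih η hη
    have hfin := hreg.finite_EA w
    have : Fintype (EA G w) := Fintype.ofFinite _
    have h1 := key_sum ν S η w
    have hηS : ∀ v ∈ S, PA η v := fun v hv => hη v (Finset.mem_insert_of_mem hv)
    rw [hPA, ih η hηS] at h1
    have h3 : ∀ σ ∈ Sg S η w, ν (cyl (insert w S) (upd η w σ)) = ν (cyl (insert w S) η) := by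
      intro σ hσ
      refine sym_eq R hreg hinv (insert w S) (hS.insert hpw) (upd η w σ) η (upd_PA hσ hηS) hη ?_
      intro c c' γ _ hc' h4 h5 hγo hγ
      refine fix_iff (fix_of_agree R S hS w hpw c c' γ hc' ?_ hγo hγ)
      intro v hv e hve
      rw [h4 v (Finset.mem_insert_of_mem hv) e hve, h5 v (Finset.mem_insert_of_mem hv) e hve]
      exact upd_agree hσ v hv e hve
    rw [Finset.sum_congr rfl h3, Finset.sum_const, card_Sg_step hreg R S hS η w hwS hwo hpw,
      nsmul_eq_mul] at h1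
    rw [Finset.card_insert_of_notMem hwS]
    have h6 : 1 ≤ S.card := Finset.card_pos.2 ⟨o, hS.1⟩
    rw [← val_succ d S.card h6] at h1
    have h7 : ((d - 1).factorial : ENNReal) ≠ 0 := by
      exact_mod_cast (Nat.factorial_ne_zero _)
    have h8 : ((d - 1).factorial : ENNReal) ≠ ⊤ := ENNReal.natCast_ne_top _
    exact ((ENNReal.mul_right_inj h7 h8).1 h1).symm

end FI.Law
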