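import Pool.Agent.H99.FI.Final.Defs

/-!
# Rooted structure of a tree
-/

set_option autoImplicit false

namespace FI.Law

open scoped Classical

variable {V : Type}

/-- root data of a tree: parents and levels -/
structure RD (G : SimpleGraph V) (o : V) where
  par : V → V
  lev : V → ℕ
  adj : ∀ v, v ≠ o → G.Adj v (par v)
  lev_par : ∀ v, v ≠ o → lev v = lev (par v) + 1
  lev_o : lev o = 0
  cases : ∀ u w, G.Adj u w → (u ≠ o ∧ par u = w) ∨ (w ≠ o ∧ par w = u)
  conn : ∀ (S : Set V), (G.induce S).Connected → o ∈ S → ∀ v ∈ S, v ≠ o → par v ∈ S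

theorem exists_RD (G : SimpleGraph V) (hG : G.IsTree) (o : V) : Nonempty (RD G o) := by
  have hu := fun v => hG.existsUnique_path v o
  choose p hp huq using hu
  have hpp : ∀ v, (p v).IsPath := fun v => hp v
  have hnil : ∀ v, v ≠ o → ¬ (p v).Nil := by
    intro v hv h
    exact hv h.eq
  have htail : ∀ v, v ≠ o → p ((p v).snd) = (p v).tail := by
    intro v hv
    exact (huq _ _ ((hpp v).tail)).symm
  refine ⟨⟨fun v => (p v).snd, fun v => (p v).length, ?_, ?_, ?_, ?_, ?_⟩⟩
  · intro v hv
    exact (p v).adj_snd (hnil v hv)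
  · intro v hv
    have h1 := htail v hv
    have h2 : (p v).tail.length + 1 = (p v).length :=
      SimpleGraph.Walk.length_tail_add_one (hnil v hv)
    show (p v).length = (p ((p v).snd)).length + 1
    rw [h1]
    omega
  · have h1 : p o = SimpleGraph.Walk.nil := (huq o _ SimpleGraph.Walk.IsPath.nil).symm
    show (p o).length = 0
    rw [h1]
    rfl
  · intro u w huw
    by_cases hw : w ∈ (p u).support
    · left
      have huo : u ≠ o := by
        rintro rfl
        have h1 : p u = SimpleGraph.Walk.nil := (huq u _ SimpleGraph.Walk.IsPath.nil).symm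
        rw [h1] at hw
        simp at hw
        exact huw.ne hw.symm
      exact ⟨huo, (hG.isAcyclic.eq_snd_of_adj_start (hpp u) huw hw).symm⟩
    · right
      have h1 : (SimpleGraph.Walk.cons huw.symm (p u)).IsPath :=
        (SimpleGraph.Walk.cons_isPath_iff _ _).2 ⟨hpp u, hw⟩
      have h2 := huq w _ h1
      have hwo : w ≠ o := by
        rintro rfl
        exact hw (p u).end_mem_support
      refine ⟨hwo, ?_⟩
      show (p w).snd = u
      rw [← h2]
      simp
  · intro S hS ho v hv hvo
    obtain ⟨q⟩ := hS.preconnected ⟨v, hv⟩ ⟨o, ho⟩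
    let F : G.induce S →g G := (SimpleGraph.Embedding.induce S).toHom
    have hF : Function.Injective F := (SimpleGraph.Embedding.induce (G := G) S).injective
    have h3 : ((q.bypass).map F).IsPath :=
      (SimpleGraph.Walk.isPath_map_iff_of_injective hF).2 q.bypass_isPath
    have h4 := huq v _ h3
    have h5 : ((q.bypass).map F).getVert 1 = F (q.bypass.getVert 1) :=
      SimpleGraph.Walk.getVert_map F q.bypass 1
    have h6 : (p v).getVert 1 = F (q.bypass.getVert 1) := by
      rw [← h4]
      exact h5
    show (p v).getVert 1 ∈ S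
    rw [h6]
    exact (q.bypass.getVert 1).2

end FI.Law
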